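import Mathlib
import Pool.Agent.Q137.Star.Main

set_option autoImplicit false

/-!
# Starshapedness is decided by clear visibility of `d + 1` points of local non-convexity

A compact connected set `E` in `ℝ^d`, for any dimension `d`, is starshaped if any `d + 1` of its
points of local non-convexity are clearly visible from a common point of `E`.
-/

namespace Pool.Agent.Results.MP_ad2f8c_co.ClearVisibility

open Metric Set Module

/-- `E` is starshaped: some point of `E` sees every point of `E`. -/
def Starshaped {d : ℕ} (E : Set (EuclideanSpace ℝ (Fin d))) : Prop :=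
  ∃ y ∈ E, ∀ x ∈ E, segment ℝ x y ⊆ E

/-- `x` is a point of local non-convexity of `E`: a boundary point of `E` such that
`B_r(x) ∩ E` is not convex for any `r > 0`. -/
def IsLNC {d : ℕ} (E : Set (EuclideanSpace ℝ (Fin d))) (x : EuclideanSpace ℝ (Fin d)) : Prop :=
  x ∈ frontier E ∧ ∀ r > 0, ¬ Convex ℝ (ball x r ∩ E)

/-- `x` is clearly visible from `y`: for some `r > 0` the point `y` sees every point of
`B_r(x) ∩ E`. -/
def ClearlyVisible {d : ℕ} (E : Set (EuclideanSpace ℝ (Fin d)))
    (x y : EuclideanSpace ℝ (Fin d)) : Prop :=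
  ∃ r > 0, ∀ w ∈ ball x r ∩ E, segment ℝ w y ⊆ E

/-- property `C_n`: any `n` (not necessarily distinct) points of local non-convexity of `E` are
clearly visible from one point of `E`. -/
def PropertyC {d : ℕ} (E : Set (EuclideanSpace ℝ (Fin d))) (n : ℕ) : Prop :=
  ∀ x : Fin n → EuclideanSpace ℝ (Fin d), (∀ i, IsLNC E (x i)) →
    ∃ y ∈ E, ∀ i, ClearlyVisible E (x i) y

/-- **Theorem.** In every dimension `d`, a compact connected set `E ⊆ ℝ^d` with property
`C_{d+1}` is starshaped. -/
theorem result (d : ℕ) (E : Set (EuclideanSpace ℝ (Fin d))) (hE : IsCompact E)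
    (hconn : IsConnected E) (hC : PropertyC E (d + 1)) : Starshaped E := by
  classical
  -- it suffices to find a good centre
  suffices h : ∃ z ∈ convexHull ℝ E, ∀ p ∈ E, Q137.Star.LC E p ∨ Q137.Star.Slide E z p by
    obtain ⟨z, hz, hgood⟩ := h
    have hstar := Q137.Star.star_of_good hE hconn.isPreconnected hz hgood
    obtain ⟨w, hw⟩ := hconn.nonempty
    exact ⟨z, hstar w hw (right_mem_segment ℝ w z), hstar⟩
  have hLC : ∀ p ∈ E, ¬ IsLNC E p → Q137.Star.LC E p := by
    intro p hp hn
    by_cases hf : p ∈ frontier E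
    · by_contra hcon
      exact hn ⟨hf, fun r hr hc => hcon ⟨r, hr, hc⟩⟩
    · have hpi : p ∈ interior E := by
        by_contra hcon
        exact hf ⟨subset_closure hp, hcon⟩
      obtain ⟨r, hr, hsub⟩ := Metric.isOpen_iff.1 isOpen_interior p hpi
      refine ⟨r, hr, ?_⟩
      rw [inter_eq_left.2 (hsub.trans interior_subset)]
      exact convex_ball p r
  by_cases hQ : ∃ p, IsLNC E p
  · set Q := {p : EuclideanSpace ℝ (Fin d) // IsLNC E p} with hQdef
    have : Nonempty Q := ⟨⟨hQ.choose, hQ.choose_spec⟩⟩
    have hmemE : ∀ x : Q, (x : EuclideanSpace ℝ (Fin d)) ∈ E := fun x =>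
      hE.isClosed.frontier_subset x.2.1
    have hclosed : IsClosed {p | IsLNC E p} := by
      have h1 : {p | IsLNC E p} = frontier E ∩ {p | ∃ r > 0, Convex ℝ (ball p r ∩ E)}ᶜ := by
        ext p
        constructor
        · rintro ⟨h1, h2⟩
          exact ⟨h1, fun ⟨r, hr, hc⟩ => h2 r hr hc⟩
        · rintro ⟨h1, h2⟩
          exact ⟨h1, fun r hr hc => h2 ⟨r, hr, hc⟩⟩
      rw [h1]
      refine isClosed_frontier.inter ?_
      rw [isClosed_compl_iff, Metric.isOpen_iff]
      rintro p ⟨r, hr, hc⟩
      refine ⟨r / 2, by positivity, fun q hq => ⟨r / 2, by positivity, ?_⟩⟩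
      have hsub : ball q (r / 2) ⊆ ball p r := by
        apply ball_subset_ball'
        rw [mem_ball] at hq
        linarith
      have : ball q (r / 2) ∩ E = ball q (r / 2) ∩ (ball p r ∩ E) := by
        ext x
        exact ⟨fun h => ⟨h.1, hsub h.1, h.2⟩, fun h => ⟨h.1, h.2.2⟩⟩
      rw [this]
      exact (convex_ball q _).inter hc
    have hcompQ : IsCompact {p | IsLNC E p} :=
      hE.of_isClosed_subset hclosed fun p hp => hE.isClosed.frontier_subset hp.1
    have : CompactSpace Q := isCompact_iff_compactSpace.1 hcompQ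
    set A : Q → Set (EuclideanSpace ℝ (Fin d)) := fun x => {y | y ∈ E ∧ ClearlyVisible E x y}
      with hA
    have hAE : ∀ x, convexHull ℝ (A x) ⊆ convexHull ℝ E := fun x =>
      convexHull_mono fun y hy => hy.1
    obtain ⟨z, hz⟩ := Q137.Star.common_point d (EuclideanSpace ℝ (Fin d)) (by simp) Q
      (fun x => convexHull ℝ (A x)) (fun x => convex_convexHull ℝ _)
      (by
        refine (isBounded_convexHull.2 hE.isBounded).subset (iUnion_subset hAE))
      (by
        intro y
        rw [Metric.isOpen_iff]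
        intro x hx
        change y ∈ convexHull ℝ (A x) at hx
        rw [convexHull_eq_union_convexHull_finite_subsets] at hx
        simp only [mem_iUnion] at hx
        obtain ⟨t, htA, hyt⟩ := hx
        -- a common radius for the points of `t`
        have hrad : ∃ r > 0, ∀ a ∈ t, ∀ w ∈ ball (x : EuclideanSpace ℝ (Fin d)) r ∩ E,
            segment ℝ w a ⊆ E := by
          have hall : ∀ a ∈ t, ∃ r > 0, ∀ w ∈ ball (x : EuclideanSpace ℝ (Fin d)) r ∩ E,
              segment ℝ w a ⊆ E := fun a ha => (htA ha).2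
          clear hyt htA
          induction t using Finset.induction_on with
          | empty => exact ⟨1, one_pos, by simp⟩
          | insert a t ha ih =>
            obtain ⟨r1, hr1, h1⟩ := hall a (Finset.mem_insert_self _ _)
            obtain ⟨r2, hr2, h2⟩ := ih fun b hb => hall b (Finset.mem_insert_of_mem hb)
            refine ⟨min r1 r2, lt_min hr1 hr2, fun b hb w hw => ?_⟩
            rcases Finset.mem_insert.1 hb with rfl | hb
            · exact h1 w ⟨ball_subset_ball (min_le_left _ _) hw.1, hw.2⟩
            · exact h2 b hb w ⟨ball_subset_ball (min_le_right _ _) hw.1, hw.2⟩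
        obtain ⟨r, hr, hrt⟩ := hrad
        refine ⟨r / 2, by positivity, fun x' hx' => ?_⟩
        change y ∈ convexHull ℝ (A x')
        refine convexHull_mono ?_ hyt
        intro a ha
        refine ⟨(htA ha).1, r / 2, by positivity, fun w hw => hrt a ha w ⟨?_, hw.2⟩⟩
        have h1 : dist (x' : EuclideanSpace ℝ (Fin d)) x < r / 2 := hx'
        have h2 : dist w (x' : EuclideanSpace ℝ (Fin d)) < r / 2 := hw.1
        rw [mem_ball]
        linarith [dist_triangle w (x' : EuclideanSpace ℝ (Fin d)) x])
      (by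
        intro F
        refine Convex.helly_theorem' (𝕜 := ℝ) (fun i _ => convex_convexHull ℝ _) ?_
        intro I _ hI
        have hI' : I.card ≤ d + 1 := by simpa using hI
        obtain ⟨q, hq⟩ := Q137.Star.exists_tuple I (d + 1) hI'
        obtain ⟨y, hyE, hy⟩ := hC (fun i => (q i : EuclideanSpace ℝ (Fin d))) fun i => (q i).2
        refine ⟨y, ?_⟩
        simp only [mem_iInter]
        intro x hx
        obtain ⟨i, rfl⟩ := hq x hx
        exact subset_convexHull ℝ _ ⟨hyE, hy i⟩)
    rw [mem_iInter] at hz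
    refine ⟨z, hAE _ (hz (Classical.arbitrary Q)), fun p hp => ?_⟩
    by_cases hpQ : IsLNC E p
    · right
      have h1 := hz ⟨p, hpQ⟩
      have h2 : convexHull ℝ (A ⟨p, hpQ⟩) ⊆ {y | Q137.Star.Slide E y p} := by
        refine convexHull_min ?_ (Q137.Star.slide_convex E p)
        rintro y ⟨-, r, hr, hy⟩
        refine ⟨r, hr, 1, one_pos, fun w hw s hs0 hs1 => ?_⟩
        apply hy w hw
        rw [segment_eq_image']
        exact ⟨s, ⟨hs0, hs1⟩, rfl⟩
      exact h2 h1
    · exact Or.inl (hLC p hp hpQ)
  · push Not at hQ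
    obtain ⟨z, hz⟩ := hconn.nonempty
    exact ⟨z, subset_convexHull ℝ _ hz, fun p hp => Or.inl (hLC p hp (hQ p))⟩

end Pool.Agent.Results.MP_ad2f8c_co.ClearVisibility
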